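import Pool.Agent.Helper89.Vol.Goals2

set_option autoImplicit false

namespace Pool.Agent.Helper2.Vol.PkJE

open Set Pool.Agent.Helper89.Vol

theorem thm (h1 : G_JA1) (h2 : G_JA2) (h2e : G_JA2E) (h3 : G_JB) (hn : G_NUM) (hu : G_UNI) :
    G_JE := by
  intro N₀ hN₀ hmax N k M g1 g2 S hN0 hN1 hk hM hg1 hg2 hS hkM hg hS2 hval
  have hbig : 1.17 < f N₀ := by
    have h := hmax (379 / 1250) ⟨by norm_num, by norm_num⟩
    have h' := hn.2.1
    linarith
  have hg1le : g1 ≤ 1 := by nlinarith [sq_nonneg g2]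
  have hN2 : 0 ≤ 3 / 4 - N ^ 2 := by nlinarith
  by_cases hc : √(3 / 4 - N ^ 2) * g2 ≤ N * g1
  · have hA := h1 N k M g1 g2 S hN0 hN1 hk hM hg1 hg2 hS hkM hg hS2 hc
    have hN9 : N < 9 / 25 := by
      by_contra hcon
      have := (h2 N g1 hN0 hN1 hg1 hg1le).2 (not_lt.mp hcon)
      linarith
    have hfN : f N ≤ f N₀ := hmax N ⟨hN0, hN1⟩
    have hg11 : g1 = 1 := by
      by_contra hcon
      have hlt : g1 < 1 := lt_of_le_of_ne hg1le hcon
      have := h2e N g1 hN0 hN9.le hg1 hlt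
      linarith
    have hg20 : g2 = 0 := by
      have : g2 ^ 2 ≤ 0 := by
        rw [hg11] at hg
        linarith
      exact pow_eq_zero_iff (two_ne_zero) |>.mp (le_antisymm this (sq_nonneg g2))
    subst hg11 hg20
    have hMle : M ≤ √(3 / 4 - N ^ 2) := by
      apply Real.le_sqrt_of_sq_le
      nlinarith
    have hSle : S ≤ √(4 - (1 + 2 * N) ^ 2) := by
      apply Real.le_sqrt_of_sq_le
      nlinarith
    have hfdef : f N = √(3 / 4 - N ^ 2) + N * √(4 - (1 + 2 * N) ^ 2) := rfl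
    have hNS : N * S ≤ N * √(4 - (1 + 2 * N) ^ 2) := mul_le_mul_of_nonneg_left hSle hN0
    have hfeq : f N = f N₀ := le_antisymm hfN (by rw [hfdef]; linarith)
    have hU := hu N₀ hN₀ hmax
    have hNN : N = N₀ := hU.1 N ⟨hN0, hN1⟩ hfeq
    have hNpos : 0 < N := by
      rw [hNN]
      linarith [hU.2.2.1]
    have hMeq : M = √(3 / 4 - N ^ 2) := by
      apply le_antisymm hMle
      rw [← hfeq, hfdef] at hval
      linarith
    have hSeq : S = √(4 - (1 + 2 * N) ^ 2) := by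
      apply le_antisymm hSle
      rw [← hfeq, hfdef] at hval
      have : N * √(4 - (1 + 2 * N) ^ 2) ≤ N * S := by linarith
      exact le_of_mul_le_mul_left this hNpos
    have hk0 : k = 0 := by
      have hsq : M ^ 2 = 3 / 4 - N ^ 2 := by
        rw [hMeq, Real.sq_sqrt hN2]
      have : k ^ 2 + 2 * k * N ≤ 0 := by nlinarith
      have h5 : 0 ≤ k * N := mul_nonneg hk hN0
      have : k ^ 2 ≤ 0 := by linarith
      exact pow_eq_zero_iff (two_ne_zero) |>.mp (le_antisymm this (sq_nonneg k))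
    rw [← hNN]
    exact ⟨rfl, hk0, hMeq, rfl, rfl, hSeq⟩
  · exfalso
    have hc' : N * g1 < √(3 / 4 - N ^ 2) * g2 := not_le.mp hc
    have hsqrt : 2 * √(3 / 4 - N ^ 2) ≤ √3 := by
      apply Real.le_sqrt_of_sq_le
      rw [mul_pow, Real.sq_sqrt hN2]
      nlinarith [sq_nonneg N]
    have h5 : 2 * N * g1 ≤ √3 * g2 := by
      have := mul_le_mul_of_nonneg_right hsqrt hg2
      nlinarith
    have := h3 N k M g1 g2 S hN0 hN1 hk hM hg1 hg2 hS hkM hg hS2 h5
    linarith

end Pool.Agent.Helper2.Vol.PkJE
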